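import Pool.Agent.H41.CO.Defs

set_option autoImplicit false

/-!
# Balanced orientations of graphs with even degrees, by Hall's theorem
-/

namespace Pool.Agent.H965.CO

open Pool.Agent.H41.CO

/-- Hall's condition: the edges against `deg v / 2` slots at every vertex `v`. -/
theorem hall_cond {V : Type} [Fintype V] [DecidableEq V] (G : SimpleGraph V) [DecidableRel G.Adj]
    (hG : ∀ v, Even (G.degree v)) (F : Finset G.edgeSet) :
    F.card ≤ (F.biUnion fun e => (Finset.univ.filter
      fun x : (Σ v : V, Fin (G.degree v / 2)) => x.1 ∈ e.1)).card := by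
  classical
  set VF : Finset V := Finset.univ.filter fun v => ∃ e ∈ F, v ∈ e.1 with hVF
  have h1 : (F.biUnion fun e => (Finset.univ.filter
      fun x : (Σ v : V, Fin (G.degree v / 2)) => x.1 ∈ e.1)) =
      VF.sigma (fun v => (Finset.univ : Finset (Fin (G.degree v / 2)))) := by
    ext x
    simp only [Finset.mem_biUnion, Finset.mem_filter, Finset.mem_univ, true_and,
      Finset.mem_sigma, and_true, hVF]
  rw [h1, Finset.card_sigma]
  simp only [Finset.card_univ, Fintype.card_fin]
  have h2 : ∑ e ∈ F, (Finset.univ.filter fun v : V => v ∈ e.1).card = F.card * 2 := by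
    refine Finset.sum_const_nat fun e _ => ?_
    have h3 : (Finset.univ.filter fun v : V => v ∈ e.1) = e.1.toFinset := by
      ext v
      simp
    rw [h3]
    exact Sym2.card_toFinset_of_not_isDiag _ (G.not_isDiag_of_mem_edgeSet e.2)
  have h4 : ∑ e ∈ F, (Finset.univ.filter fun v : V => v ∈ e.1).card =
      ∑ v : V, (F.filter fun e => v ∈ e.1).card := by
    simp only [Finset.card_filter]
    exact Finset.sum_comm
  have h5 : ∑ v : V, (F.filter fun e => v ∈ e.1).card =
      ∑ v ∈ VF, (F.filter fun e => v ∈ e.1).card := by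
    symm
    refine Finset.sum_subset (Finset.subset_univ _) fun v _ hv => ?_
    rw [Finset.card_eq_zero, Finset.filter_eq_empty_iff]
    intro e he hve
    exact hv (by rw [hVF]; exact Finset.mem_filter.mpr ⟨Finset.mem_univ _, e, he, hve⟩)
  have h6 : ∀ v, (F.filter fun e => v ∈ e.1).card ≤ G.degree v := by
    intro v
    rw [← SimpleGraph.card_incidenceFinset_eq_degree]
    refine Finset.card_le_card_of_injOn (fun e => e.1) ?_ ?_
    · intro e he
      have he' := (Finset.mem_filter.mp he).2
      simp only [Finset.mem_coe, SimpleGraph.mem_incidenceFinset]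
      exact ⟨e.2, he'⟩
    · intro e _ e' _ h
      exact Subtype.ext h
  have h7 : ∑ v ∈ VF, (F.filter fun e => v ∈ e.1).card ≤ ∑ v ∈ VF, 2 * (G.degree v / 2) := by
    refine Finset.sum_le_sum fun v _ => (h6 v).trans ?_
    obtain ⟨r, hr⟩ := hG v
    omega
  rw [← Finset.mul_sum] at h7
  omega

theorem euler : S_EULER := by
  classical
  intro V _ _ G hE
  have hdeg : ∀ v, {w | G.Adj v w}.ncard = G.degree v := by
    intro v
    rw [← SimpleGraph.card_neighborFinset_eq_degree, ← Set.ncard_coe_finset]
    congr 1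
    ext w
    simp
  have hG : ∀ v, Even (G.degree v) := fun v => by
    rw [← hdeg]
    exact hE v
  obtain ⟨f, hf, hft⟩ := (Finset.all_card_le_biUnion_card_iff_exists_injective
    (fun e : G.edgeSet => (Finset.univ.filter
      fun x : (Σ v : V, Fin (G.degree v / 2)) => x.1 ∈ e.1))).mp (hall_cond G hG)
  have hft' : ∀ e : G.edgeSet, (f e).1 ∈ e.1 := fun e => (Finset.mem_filter.mp (hft e)).2
  set A : Finset (V × V) := Finset.univ.filter fun a => ∃ h : G.Adj a.1 a.2,
    (f ⟨s(a.1, a.2), h⟩).1 = a.1 with hA
  have memA : ∀ u v, (u, v) ∈ A ↔ ∃ h : G.Adj u v, (f ⟨s(u, v), h⟩).1 = u := by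
    intro u v
    simp [hA]
  have swap : ∀ u v (h : G.Adj u v) (h' : G.Adj v u),
      f ⟨s(u, v), h⟩ = f ⟨s(v, u), h'⟩ := by
    intro u v h h'
    congr 1
    exact Subtype.ext Sym2.eq_swap
  have hOri : Ori G A := by
    refine ⟨fun u v => ⟨fun h => ?_, fun h => ?_⟩, fun u v h h' => ?_⟩
    · have := hft' ⟨s(u, v), h⟩
      rw [Sym2.mem_iff] at this
      rcases this with h1 | h1
      · exact Or.inl ((memA u v).mpr ⟨h, h1⟩)
      · refine Or.inr ((memA v u).mpr ⟨h.symm, ?_⟩)
        rw [← swap u v h h.symm]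
        exact h1
    · rcases h with h | h
      · exact ((memA u v).mp h).1
      · exact ((memA v u).mp h).1.symm
    · obtain ⟨a, ha⟩ := (memA u v).mp h
      obtain ⟨b, hb⟩ := (memA v u).mp h'
      rw [← swap u v a b] at hb
      exact a.ne (ha.symm.trans hb)
  refine ⟨A, hOri, ?_⟩
  have hout : ∀ v, out A v = (Finset.univ.filter fun w => (v, w) ∈ A).card := by
    intro v
    unfold out
    refine Finset.card_bij (fun a _ => a.2) ?_ ?_ ?_
    · intro a ha
      obtain ⟨h1, h2⟩ := Finset.mem_filter.mp ha
      refine Finset.mem_filter.mpr ⟨Finset.mem_univ _, ?_⟩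
      rw [← h2]
      exact h1
    · intro a ha b hb h
      exact Prod.ext ((Finset.mem_filter.mp ha).2.trans (Finset.mem_filter.mp hb).2.symm) h
    · intro w hw
      exact ⟨(v, w), Finset.mem_filter.mpr ⟨(Finset.mem_filter.mp hw).2, rfl⟩, rfl⟩
  have hinn : ∀ v, inn A v = (Finset.univ.filter fun w => (w, v) ∈ A).card := by
    intro v
    unfold inn
    refine Finset.card_bij (fun a _ => a.1) ?_ ?_ ?_
    · intro a ha
      obtain ⟨h1, h2⟩ := Finset.mem_filter.mp ha
      refine Finset.mem_filter.mpr ⟨Finset.mem_univ _, ?_⟩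
      rw [← h2]
      exact h1
    · intro a ha b hb h
      exact Prod.ext h ((Finset.mem_filter.mp ha).2.trans (Finset.mem_filter.mp hb).2.symm)
    · intro w hw
      exact ⟨(w, v), Finset.mem_filter.mpr ⟨(Finset.mem_filter.mp hw).2, rfl⟩, rfl⟩
  have hsum : ∀ v, out A v + inn A v = G.degree v := by
    intro v
    rw [hout, hinn, ← SimpleGraph.card_neighborFinset_eq_degree, ← Finset.card_union_of_disjoint]
    · congr 1
      ext w
      simp only [Finset.mem_union, Finset.mem_filter, Finset.mem_univ, true_and,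
        SimpleGraph.mem_neighborFinset]
      exact (hOri.1 v w).symm
    · rw [Finset.disjoint_left]
      intro w h1 h2
      exact hOri.2 v w (Finset.mem_filter.mp h1).2 (Finset.mem_filter.mp h2).2
  have hle : ∀ v, out A v ≤ G.degree v / 2 := by
    intro v
    rw [hout]
    have key : ∀ w ∈ (Finset.univ.filter fun w => (v, w) ∈ A), ∃ i : ℕ,
        ∃ (hi : i < G.degree v / 2) (h : G.Adj v w), f ⟨s(v, w), h⟩ = ⟨v, ⟨i, hi⟩⟩ := by
      intro w hw
      obtain ⟨h, h1⟩ := (memA v w).mp (Finset.mem_filter.mp hw).2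
      generalize hx : f ⟨s(v, w), h⟩ = x at h1
      obtain ⟨x1, x2⟩ := x
      simp only at h1
      subst h1
      exact ⟨x2.1, x2.2, h, hx⟩
    choose! g hg using key
    have : (Finset.univ.filter fun w => (v, w) ∈ A).card ≤
        (Finset.range (G.degree v / 2)).card := by
      refine Finset.card_le_card_of_injOn g (fun w hw => ?_) ?_
      · obtain ⟨hi, _⟩ := hg w hw
        exact Finset.mem_coe.mpr (Finset.mem_range.mpr hi)
      · intro w hw w' hw' h
        obtain ⟨hi, a, ha⟩ := hg w hw
        obtain ⟨hi', b, hb⟩ := hg w' hw'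
        have h2 : f ⟨s(v, w), a⟩ = f ⟨s(v, w'), b⟩ := by
          rw [ha, hb]
          congr 2
        have h3 := congrArg Subtype.val (hf h2)
        simp only at h3
        exact Sym2.congr_right.mp h3
    simpa using this
  have hle2 : ∀ v ∈ (Finset.univ : Finset V), out A v ≤ inn A v := by
    intro v _
    have h1 := hle v
    have h2 := hsum v
    omega
  have htot : ∑ v, out A v = ∑ v, inn A v := by
    have e1 : ∑ v, out A v = A.card := by
      unfold out
      exact (Finset.card_eq_sum_card_fiberwise fun a _ => Finset.mem_coe.mpr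
        (Finset.mem_univ a.1)).symm
    have e2 : ∑ v, inn A v = A.card := by
      unfold inn
      exact (Finset.card_eq_sum_card_fiberwise fun a _ => Finset.mem_coe.mpr
        (Finset.mem_univ a.2)).symm
    rw [e1, e2]
  intro v
  exact (Finset.sum_eq_sum_iff_of_le hle2).mp htot v (Finset.mem_univ v)

end Pool.Agent.H965.CO
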